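import Pool.Agent.Helper47.TW.WLim
import Pool.Agent.Helper98.GY.Stmts

/-!
Row UEQ of the sheet GY (MP_7a8f48_an): unique ergodicity and total ergodicity give
equidistribution for all powers.
-/

open MeasureTheory Filter Topology Finset
open scoped ComplexConjugate ENNReal

namespace Pool.Agent.Helper59.GY

open Pool.Agent.Helper98.GY (ST_UEQ)
open Pool.Agent.Helper16.BZ (EQ)

/-- the only invariant probability measure of a power -/
theorem uniq_pow {Y : Type*} [MeasurableSpace Y] {ν : Measure Y} [IsProbabilityMeasure ν]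
    {S : Y → Y} (hS : Measurable S)
    (hu : ∀ ν' : Measure Y, IsProbabilityMeasure ν' → MeasurePreserving S ν' ν' → ν' = ν)
    {p : ℕ} (hp : 1 ≤ p) (he : Ergodic S^[p] ν) {ν' : Measure Y} [IsProbabilityMeasure ν']
    (h : MeasurePreserving S^[p] ν' ν') : ν' = ν := by
  have hp0 : (p : ℝ≥0∞) ≠ 0 := by exact_mod_cast (Nat.one_le_iff_ne_zero.1 hp)
  have hpt : (p : ℝ≥0∞) ≠ ∞ := ENNReal.natCast_ne_top p
  let s : Measure Y := ∑ j ∈ range p, ν'.map S^[j]
  have hSj : ∀ j : ℕ, Measurable S^[j] := fun j => hS.iterate j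
  have hs : s.map S = s := by
    have h1 : s.map S = ∑ j ∈ range p, ν'.map S^[j + 1] := by
      show (∑ j ∈ range p, ν'.map S^[j]).map S = _
      rw [Measure.map_finset_sum hS.aemeasurable]
      refine Finset.sum_congr rfl fun j _ => ?_
      rw [Measure.map_map hS (hSj j), Function.iterate_succ']
    rw [h1]
    have h2 : ∑ j ∈ range p, ν'.map S^[j + 1] + ν'.map S^[0] =
        ∑ j ∈ range p, ν'.map S^[j] + ν'.map S^[p] := by
      have a1 := Finset.sum_range_succ (fun j => ν'.map S^[j]) p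
      have a2 := Finset.sum_range_succ' (fun j => ν'.map S^[j]) p
      exact a2.symm.trans a1
    have h3 : ν'.map S^[0] = ν' := by
      rw [Function.iterate_zero, Measure.map_id]
    rw [h.map_eq, h3] at h2
    ext A hA
    have h4 := congrArg (fun m : Measure Y => m A) h2
    simp only [Measure.add_apply] at h4
    exact (ENNReal.add_left_inj (measure_ne_top ν' A)).1 h4
  let ν₂ : Measure Y := (p : ℝ≥0∞)⁻¹ • s
  have hpr : IsProbabilityMeasure ν₂ := by
    refine ⟨?_⟩
    show ((p : ℝ≥0∞)⁻¹ • ∑ j ∈ range p, ν'.map S^[j]) Set.univ = 1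
    rw [Measure.smul_apply, Measure.finsetSum_apply, smul_eq_mul]
    have h1 : ∀ j ∈ range p, (ν'.map S^[j]) Set.univ = 1 := by
      intro j _
      rw [Measure.map_apply (hSj j) MeasurableSet.univ, Set.preimage_univ, measure_univ]
    rw [Finset.sum_congr rfl h1, Finset.sum_const, card_range, nsmul_eq_mul, mul_one]
    exact ENNReal.inv_mul_cancel hp0 hpt
  have hmp : MeasurePreserving S ν₂ ν₂ := by
    refine ⟨hS, ?_⟩
    show ((p : ℝ≥0∞)⁻¹ • s).map S = (p : ℝ≥0∞)⁻¹ • s
    rw [Measure.map_smul, hs]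
  have h2 : ν₂ = ν := hu ν₂ hpr hmp
  have hac : ν' ≪ ν := by
    refine Measure.AbsolutelyContinuous.mk fun A hA h0 => ?_
    rw [← h2] at h0
    have h3 : ((p : ℝ≥0∞)⁻¹ • ∑ j ∈ range p, ν'.map S^[j]) A = 0 := h0
    rw [Measure.smul_apply, Measure.finsetSum_apply, smul_eq_mul, mul_eq_zero] at h3
    rcases h3 with h3 | h3
    · exact absurd h3 (ENNReal.inv_ne_zero.2 hpt)
    · have h4 := (Finset.sum_eq_zero_iff.1 h3) 0 (mem_range.2 (by omega))
      rw [Function.iterate_zero, Measure.map_id] at h4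
      exact h4
  exact he.eq_of_absolutelyContinuous h hac

/-- **UEQ**. -/
theorem st_UEQ : ST_UEQ := by
  intro Y _ _ _ _ ν _ S hS hu he p hp F hF x
  have hE : Ergodic S^[p] ν := he p hp
  have hτ : Continuous S^[p] := hS.iterate p
  set I : ℂ := ∫ y, F y ∂ν with hI
  set Ψ : Y → ℂ := fun y => F y - I with hΨ
  have hΨc : Continuous Ψ := hF.sub continuous_const
  have hFi : ∀ ρ : Measure Y, IsProbabilityMeasure ρ → Integrable F ρ := by
    intro ρ _
    obtain ⟨B, hB⟩ := isCompact_univ.exists_bound_of_continuousOn hF.continuousOn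
    exact Integrable.of_bound hF.aestronglyMeasurable B
      (Eventually.of_forall fun y => hB y (Set.mem_univ y))
  have key := fun ε hε => Pool.Agent.Helper47.TW.wlim_gen hτ x Ψ hΨc 0 (fun lam hl he => by
    have h1 : lam = ν := uniq_pow hS.measurable hu hp hE he.toMeasurePreserving
    subst h1
    simp only [hΨ]
    rw [integral_sub (hFi _ inferInstance) (integrable_const _)]
    simp [hI]) ε hε
  rw [Metric.tendsto_atTop]
  intro ε hε
  obtain ⟨B, hB⟩ := isCompact_univ.exists_bound_of_continuousOn hΨc.continuousOn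
  have hB' : ∀ y, ‖Ψ y‖ ≤ B := fun y => hB y (Set.mem_univ y)
  have h1 := key (ε / 3) (by positivity)
  have h2 : ∀ᶠ n : ℕ in atTop, 2 * B / (ε / 3) ≤ n :=
    (tendsto_natCast_atTop_atTop (R := ℝ)).eventually_ge_atTop _
  obtain ⟨M, hM⟩ := eventually_atTop.1 (h1.and (h2.and (eventually_ge_atTop 1)))
  refine ⟨M, fun n hn => ?_⟩
  obtain ⟨h3, h4, h5⟩ := hM n hn
  have hn0 : (0 : ℝ) < n := by exact_mod_cast h5
  have hnc : (n : ℂ) ≠ 0 := by exact_mod_cast (Nat.one_le_iff_ne_zero.1 h5)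
  have e1 : ∀ i, S^[p * i] x = (S^[p])^[i] x := fun i => by
    rw [← Function.iterate_mul]
  have e2 : ∑ i ∈ range n, Ψ ((S^[p])^[i] x) =
      Ψ x - Ψ ((S^[p])^[n] x) + ∑ i ∈ Finset.Icc 1 n, Ψ ((S^[p])^[i] x) := by
    have h6 : ∑ i ∈ range (n + 1), Ψ ((S^[p])^[i] x) =
        Ψ x + ∑ i ∈ Finset.Icc 1 n, Ψ ((S^[p])^[i] x) := by
      rw [Finset.sum_range_succ', add_comm]
      congr 1
      rw [Finset.range_eq_Ico, Finset.sum_Ico_add' (fun i => Ψ ((S^[p])^[i] x)) 0 n 1]
      rfl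
    rw [Finset.sum_range_succ] at h6
    linear_combination h6
  have e3 : (∑ i ∈ range n, F (S^[p * i] x)) / (n : ℂ) - I =
      (∑ i ∈ range n, Ψ ((S^[p])^[i] x)) / (n : ℂ) := by
    simp only [hΨ]
    rw [Finset.sum_sub_distrib, Finset.sum_const, card_range, nsmul_eq_mul, sub_div,
      mul_div_cancel_left₀ _ hnc]
    simp only [e1]
  rw [dist_eq_norm, e3, norm_div, Complex.norm_natCast, div_lt_iff₀ hn0, e2]
  have hx1 := hB' x
  have hx2 := hB' ((S^[p])^[n] x)
  have h7 : ‖Ψ x - Ψ ((S^[p])^[n] x) + ∑ i ∈ Finset.Icc 1 n, Ψ ((S^[p])^[i] x)‖ ≤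
      (B + B) + (0 + ε / 3) * n :=
    (norm_add_le _ _).trans (add_le_add ((norm_sub_le _ _).trans (add_le_add hx1 hx2)) h3)
  have h8 : 2 * B ≤ ε / 3 * n := by
    rw [div_le_iff₀ (by positivity)] at h4
    linarith
  nlinarith [mul_pos hε hn0]

end Pool.Agent.Helper59.GY
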